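import Pool.Agent.H.MP_665542_gt.Main

namespace Pool.Agent.Results.MP_665542_gt.No

open Real Pool.Agent.H.MP_665542_gt in
theorem result :
    ∃ f₀ : ℝ × ℝ → EuclideanSpace ℝ (Fin 3),
      ContDiff ℝ ((⊤ : ℕ∞) : WithTop ℕ∞) f₀ ∧
      (∀ r θ : ℝ, f₀ (r + 2 * π, θ) = f₀ (r, θ) ∧ f₀ (r, θ + 2 * π) = f₀ (r, θ)) ∧
      (∀ p q : ℝ × ℝ, f₀ p = f₀ q →
        ∃ m k : ℤ, q.1 = p.1 + m * (2 * π) ∧ q.2 = p.2 + k * (2 * π)) ∧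
      (∀ p : ℝ × ℝ, Function.Injective (fderiv ℝ f₀ p)) ∧
      ∀ ε : ℝ, 0 < ε → ∃ E F G : ℝ × ℝ → ℝ,
        ContDiff ℝ ((⊤ : ℕ∞) : WithTop ℕ∞) (fun p => (E p, F p, G p)) ∧
        (∀ r θ : ℝ, (E (r + 2 * π, θ), F (r + 2 * π, θ), G (r + 2 * π, θ)) =
            (E (r, θ), F (r, θ), G (r, θ)) ∧
          (E (r, θ + 2 * π), F (r, θ + 2 * π), G (r, θ + 2 * π)) =
            (E (r, θ), F (r, θ), G (r, θ))) ∧
        (∀ p : ℝ × ℝ, 0 < E p ∧ 0 < E p * G p - F p ^ 2) ∧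
        (∀ p e : ℝ × ℝ,
          |E p * e.1 ^ 2 + 2 * F p * e.1 * e.2 + G p * e.2 ^ 2 - ‖fderiv ℝ f₀ p e‖ ^ 2| ≤
            ε * ‖fderiv ℝ f₀ p e‖ ^ 2) ∧
        ¬ ∃ f : ℝ × ℝ → EuclideanSpace ℝ (Fin 3),
          ContDiff ℝ ((⊤ : ℕ∞) : WithTop ℕ∞) f ∧
          (∀ r θ : ℝ, f (r + 2 * π, θ) = f (r, θ) ∧ f (r, θ + 2 * π) = f (r, θ)) ∧
          ∀ p e : ℝ × ℝ,
            ‖fderiv ℝ f p e‖ ^ 2 = E p * e.1 ^ 2 + 2 * F p * e.1 * e.2 + G p * e.2 ^ 2 := by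
  have hc : ∀ r : ℝ, 0 < 2 + cos r := fun r => by linarith [neg_one_le_cos r]
  refine ⟨f₀, f₀_smooth, fun r θ => by simp [f₀], f₀_inj, fun p => ?_, fun ε hε => ?_⟩
  · refine (injective_iff_map_eq_zero _).2 fun e he => ?_
    have h := f₀_norm p e
    have h1 := mul_nonneg (sq_nonneg (2 + cos p.1)) (sq_nonneg e.2)
    rw [he, norm_zero] at h
    have h2 : e.1 ^ 2 = 0 := by nlinarith [sq_nonneg e.1]
    have h3 : (2 + cos p.1) ^ 2 * e.2 ^ 2 = 0 := by nlinarith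
    exact Prod.ext (by simpa using h2) (by simpa [(hc p.1).ne'] using h3)
  · obtain ⟨l, h0, h1, h2⟩ : ∃ l : ℝ, 0 < l ∧ l < 1 ∧ 1 - l ^ 2 ≤ ε := by
      refine ⟨max (1 / 2) (1 - ε / 2), lt_max_of_lt_left (by norm_num),
        max_lt (by norm_num) (by linarith), ?_⟩
      nlinarith [le_max_right (1 / 2 : ℝ) (1 - ε / 2), sq_nonneg (max (1 / 2) (1 - ε / 2) - 1)]
    refine ⟨fun _ => 1, fun _ => 0, fun p => (l * (2 + cos p.1)) ^ 2, by fun_prop,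
      fun r θ => by simp, fun p => ⟨one_pos, by have := hc p.1; simp; positivity⟩, fun p e => ?_,
      fun ⟨f, hf, hp, hi⟩ => no_imm h0 h1 hf hp fun p e => by simpa using hi p e⟩
    have h3 := mul_nonneg (sq_nonneg (2 + cos p.1)) (sq_nonneg e.2)
    have h4 : 0 ≤ 1 - l ^ 2 := by nlinarith
    rw [f₀_norm, abs_le]
    constructor <;> nlinarith [mul_nonneg h4 h3, mul_le_mul_of_nonneg_right h2 h3,
      mul_nonneg hε.le (sq_nonneg e.1)]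

end Pool.Agent.Results.MP_665542_gt.No
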